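import Pool.Agent.TH882.T2

/-!
Fixed slopes `a_1, ..., a_s` and almost all constant terms: for all but a proportion `κ` of the
vectors `(k_1, ..., k_s)` without local obstruction, `n` and all `a_i n + k_i` are prime for at least
`c x / (log x) ^ (s + 1)` numbers `n ≤ x`, which moreover have at least `m` other primes of the same
class modulo `q` at distance at most `ε log x`.
-/

set_option autoImplicit false

open Finset Filter Topology Polynomial

namespace Pool.Agent.Results.MP_bca3e5_nt.LinearFormsAtClusters

open Classical in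
/-- The primes different from `p`, congruent to `p` modulo `q`, at distance at most `R` from `p`. -/
noncomputable def neighbours (q : ℕ) (R : ℝ) (p : ℕ) : Finset ℕ :=
  (Icc 1 (p + ⌊R⌋₊)).filter (fun p' => p'.Prime ∧ p' ≠ p ∧ p' % q = p % q ∧ |(p' : ℝ) - p| ≤ R)

/-- No prime divides the product of `n` and all `a_i n + k_i` for every integer `n`. -/
def Admissible {s : ℕ} (a k : Fin s → ℕ) : Prop :=
  ∀ l : ℕ, l.Prime → ∃ n : ℤ, ¬ (l : ℤ) ∣ n * ∏ i, (a i * n + k i)

open Classical in
/-- The primes `n ≤ x` with at least `m` neighbours at distance at most `ε * log x` for which all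
`a_i n + k_i` are prime. -/
noncomputable def arguments {s : ℕ} (q m : ℕ) (ε : ℝ) (a k : Fin s → ℕ) (x : ℕ) : Finset ℕ :=
  (Icc 1 x).filter (fun n => n.Prime ∧ (∀ i, (a i * n + k i).Prime) ∧
    m ≤ (neighbours q (ε * Real.log x) n).card)

open Classical in
/-- The admissible vectors `1 ≤ k_i ≤ K x` with few arguments. -/
noncomputable def exceptions {s : ℕ} (q m : ℕ) (ε c : ℝ) (a : Fin s → ℕ) (K x : ℕ) :
    Finset (Fin s → ℕ) :=
  (Fintype.piFinset (fun _ : Fin s => Icc 1 (K * x))).filter (fun k =>
    Admissible a k ∧ ((arguments q m ε a k x).card : ℝ) < c * (x / Real.log x ^ (s + 1)))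

theorem result (s : ℕ) (a : Fin s → ℕ) (ha : ∀ i, 1 ≤ a i) (q m K : ℕ) (hq : 1 ≤ q) (ε κ : ℝ)
    (hε : 0 < ε) (hκ : 0 < κ) : (∃ c : ℝ, 0 < c ∧ ∃ x₀ : ℕ, ∀ x : ℕ, x₀ ≤ x →
      ((exceptions q m ε c a K x).card : ℝ) ≤ κ * (x : ℝ) ^ s) ∧
    ∀ a' k' : ℕ, 1 ≤ a' →
      (Admissible (fun _ : Fin 1 => a') (fun _ => k') ↔ a'.Coprime k' ∧ Odd (a' + k')) := by
  classical
  constructor
  · set g : Fin s → ℤ[X] := fun i => C (a i : ℤ) * X with hg
    have hne : ∀ i, (a i : ℤ) ≠ 0 := fun i => by
      have := ha i
      omega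
    have hgd : ∀ i, (g i).natDegree = 1 := fun i => natDegree_C_mul_X _ (hne i)
    have hgl : ∀ i, 0 < (g i).leadingCoeff := fun i => by
      rw [hg]
      simp only [leadingCoeff_mul, leadingCoeff_C, leadingCoeff_X, mul_one]
      have := ha i
      omega
    have hge : ∀ i, ∀ n : ℤ, (g i).eval n = a i * n := fun i n => by
      rw [hg]
      simp only [eval_mul, eval_C, eval_X]
    obtain ⟨c, hc, x₀, h⟩ := Pool.Agent.TH882.TS.nb_main g (fun i => by rw [hgd i]) hgl q m hq ε hε
      K κ hκ
    refine ⟨c, hc, x₀, fun x hx => ?_⟩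
    have h1 := h x hx
    have e0 : ∏ i, (x : ℝ) ^ (g i).natDegree = (x : ℝ) ^ s := by
      rw [prod_congr rfl fun i _ => by rw [hgd i, pow_one]]
      rw [prod_const, card_univ, Fintype.card_fin]
    rw [e0] at h1
    refine le_trans (Pool.Agent.TH882.TS.sub_exc _ g c K x _ (fun k => arguments q m ε a k x)
      ?_ ?_ ?_ ?_) h1
    · intro k hk i
      unfold exceptions at hk
      rw [mem_filter, Fintype.mem_piFinset] at hk
      rw [hgd i, pow_one]
      exact hk.1 i
    · intro k hk l hlp
      unfold exceptions at hk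
      rw [mem_filter] at hk
      obtain ⟨n, hn⟩ := hk.2.1 l hlp
      refine ⟨n, fun h => hn (h.mul_right _), fun i h => hn ?_⟩
      rw [hge i n, add_comm] at h
      exact (h.trans (dvd_prod_of_mem (fun i => (a i : ℤ) * n + k i) (mem_univ i))).mul_left _
    · intro k hk
      unfold exceptions at hk
      rw [mem_filter] at hk
      exact hk.2.2
    · intro k hk n hn1 hn2 hn3 hn4
      unfold arguments
      rw [mem_filter]
      refine ⟨hn1, hn2, fun i => ?_, hn3⟩
      have h2 := hn4 i
      rw [hge i] at h2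
      have e2 : (k i : ℤ) + a i * (n : ℤ) = ((a i * n + k i : ℕ) : ℤ) := by push_cast; ring
      rw [e2, Int.toNat_natCast] at h2
      exact h2
  · intro a' k' ha'
    constructor
    · intro h
      constructor
      · apply Nat.coprime_of_dvd
        intro l hlp hla hlk
        obtain ⟨n, hn⟩ := h l hlp
        apply hn
        rw [Fin.prod_univ_one]
        apply Dvd.dvd.mul_left
        have h1 : (l : ℤ) ∣ a' := by exact_mod_cast hla
        have h2 : (l : ℤ) ∣ k' := by exact_mod_cast hlk
        exact dvd_add (h1.mul_right _) h2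
      · rw [Nat.odd_iff]
        by_contra hcon
        obtain ⟨n, hn⟩ := h 2 Nat.prime_two
        apply hn
        rw [Fin.prod_univ_one]
        rcases Int.even_or_odd n with he | ho
        · obtain ⟨u, hu⟩ := he
          exact Dvd.dvd.mul_right ⟨u, by rw [hu]; push_cast; ring⟩ _
        · obtain ⟨u, hu⟩ := ho
          obtain ⟨v, hv⟩ : ∃ v : ℤ, (a' : ℤ) + k' = 2 * v := ⟨(a' + k') / 2, by omega⟩
          refine Dvd.dvd.mul_left ⟨a' * u + v, ?_⟩ _
          rw [hu]
          push_cast
          linear_combination hv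
    · rintro ⟨hcop, hodd⟩ l hlp
      have hp : Prime (l : ℤ) := Nat.prime_iff_prime_int.1 hlp
      rw [Nat.odd_iff] at hodd
      have key : ∃ n : ℤ, ¬ (l : ℤ) ∣ n ∧ ¬ (l : ℤ) ∣ a' * n + k' := by
        rcases Nat.lt_or_ge l 3 with h3 | h3
        · have hl2 : l = 2 := by
            have := hlp.two_le
            omega
          subst hl2
          refine ⟨1, by norm_num, fun hd => ?_⟩
          have h7 : ((a' : ℤ) * 1 + k') % 2 = 0 := Int.emod_eq_zero_of_dvd (by exact_mod_cast hd)
          omega
        · by_cases h1 : (l : ℤ) ∣ a' * 1 + k'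
          · refine ⟨2, fun hd => ?_, fun hd => ?_⟩
            · have h8 : l ∣ 2 := by exact_mod_cast hd
              have := Nat.le_of_dvd (by norm_num) h8
              omega
            · have h2 := hd.sub h1
              have e1 : (a' : ℤ) * 2 + k' - (a' * 1 + k') = a' := by ring
              rw [e1] at h2
              have h4 : (l : ℤ) ∣ k' := by
                have h5 := h1.sub (h2.mul_right 1)
                have e2 : (a' : ℤ) * 1 + k' - a' * 1 = k' := by ring
                rwa [e2] at h5
              have h6 : l ∣ a' := by exact_mod_cast h2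
              have h7 : l ∣ k' := by exact_mod_cast h4
              have h8 := Nat.dvd_gcd h6 h7
              rw [hcop] at h8
              exact hlp.one_lt.ne' (Nat.dvd_one.1 h8)
          · refine ⟨1, fun hd => ?_, h1⟩
            have h8 : l ∣ 1 := by exact_mod_cast hd
            exact hlp.one_lt.ne' (Nat.dvd_one.1 h8)
      obtain ⟨n, h1, h2⟩ := key
      refine ⟨n, ?_⟩
      rw [Fin.prod_univ_one]
      intro hd
      rcases hp.dvd_or_dvd hd with h3 | h3
      · exact h1 h3
      · exact h2 h3

end Pool.Agent.Results.MP_bca3e5_nt.LinearFormsAtClusters
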