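import Pool.Agent.TH464.PO.LinInst

set_option autoImplicit false

/-!
# Almost primes `m` with all `a i m + 1` almost prime, uniformly in the `a i`: the Poisson law

Let `m` be good if `m` has at most `r`, and the `s` numbers `a i m + 1` all have at most `(D + 1)
r` prime factors, all larger than `X ^ (1 / r)`. Let `V` be the product of `1 - ρ(p) / p` over the
primes `p ≤ X ^ (1 / r)`, `ρ(p)` the number of the bad residues. Given `θ > 0`, a size `x` and an
accuracy `ε`, for all `r ≥ r0` and all large `X`, uniformly in the distinct `a i ≤ X ^ D` (`s` of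
them, admissible), in ALL intervals `(Z, Z + Y]` inside `[0, 2 X]` of length `Y ≥ X ^ θ` and for
ALL window lengths `T` with `T V ≤ x` the number of the good `m` in `(n, n + T]`, for `n` in `(Z,
Z + Y]`, has the Poisson distribution of mean `T V`, up to `ε` in total variation.
-/

namespace Pool.Agent.Results.MP_bca3e5_nt.PoissonUniform

open Finset Filter

/-- `N` has at most `B` prime factors (with multiplicity), all of them larger than `z`. -/
def AlmostPrime (B : ℕ) (z : ℝ) (N : ℕ) : Prop :=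
  N.primeFactorsList.length ≤ B ∧ ∀ p : ℕ, p.Prime → p ∣ N → z < (p : ℝ)

/-- The `a i` are positive, at most `B` and distinct, and the product of `m` and the `a i m + 1` has no
fixed prime divisor. -/
structure Admissible {s : ℕ} (a : Fin s → ℕ) (B : ℕ) : Prop where
  pos : ∀ i, 1 ≤ a i
  le : ∀ i, a i ≤ B
  distinct : Function.Injective a
  noFixedPrime : ∀ p : ℕ, p.Prime → ∃ m : ℕ, ¬ p ∣ m ∧ ∀ i, ¬ p ∣ a i * m + 1

/-- `m` is good: `m` has at most `r`, and all the `a i m + 1` have at most `(D + 1) r` prime factors, all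
larger than `X ^ (1 / r)`. -/
def Good {s : ℕ} (D r X : ℕ) (a : Fin s → ℕ) (m : ℕ) : Prop :=
  AlmostPrime r ((X : ℝ) ^ (1 / (r : ℝ))) m ∧
    ∀ i, AlmostPrime ((D + 1) * r) ((X : ℝ) ^ (1 / (r : ℝ))) (a i * m + 1)

open Classical in
/-- The sieve density: the product of `1 - ρ(p) / p` over the primes `p ≤ X ^ (1 / r)`, where `ρ(p)` is
the number of the `t` mod `p` with `p` dividing `t` or one of the `a i t + 1`. -/
noncomputable def V {s : ℕ} (r X : ℕ) (a : Fin s → ℕ) : ℝ :=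
  ∏ p ∈ (Finset.range (⌊(X : ℝ) ^ (1 / (r : ℝ))⌋₊ + 1)).filter Nat.Prime,
    (1 - (((Finset.range p).filter (fun t : ℕ => p ∣ t ∨ ∃ i, p ∣ a i * t + 1)).card : ℝ) / p)

open Classical in
/-- The number of the good `m` in `(n, n + T]`. -/
noncomputable def N {s : ℕ} (D r X : ℕ) (a : Fin s → ℕ) (T n : ℕ) : ℕ :=
  ((Finset.Ioc n (n + T)).filter (fun m => Good D r X a m)).card

/-- The probability of `E` for the Poisson distribution of mean `x`. -/
noncomputable def Poi (x : ℝ) (E : Finset ℕ) : ℝ :=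
  ∑ j ∈ E, Real.exp (-x) * x ^ j / j.factorial

open Pool.Agent.TH464.PO Pool.Agent.H373R2.T7 Pool.Agent.W123.RP

lemma fam (s D : ℕ) (hs : 1 ≤ s) (r : ℕ) (hr : 1 ≤ r) : ∀ᶠ X : ℕ in atTop, ∀ a : Fin s → ℕ,
    Admissible a (X ^ D) → ∃ u v : Fin (s + 1) → ℤ, LF (s + 1) u v (X ^ D) (Real.log X ^ (s + 1 + 1)) ∧
      (∀ m ≤ 3 * X, Sf (QL u v) ⌊(X : ℝ) ^ (1 / (r : ℝ))⌋₊ m ↔ Good D r X a m) ∧
      Vq (QL u v) ⌊(X : ℝ) ^ (1 / (r : ℝ))⌋₊ = V r X a := by
  filter_upwards [ladder_fam s D hs r hr] with X h a ha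
  obtain ⟨h1, h2⟩ := h a ha.pos ha.le ha.noFixedPrime
  exact ⟨_, _, h1, h2, V_nat (lu a) (lv s) _ (fun p m => l_ex a (fun N => p ∣ N) m) _⟩

open Classical in
/-- **The Poisson law**, in all intervals and for all windows. -/
theorem result (s D : ℕ) (hs : 1 ≤ s) (θ : ℝ) (hθ : 0 < θ) (x ε : ℝ) (hε : 0 < ε) :
    ∃ r0 : ℕ, ∀ r : ℕ, r0 ≤ r → ∀ᶠ X : ℕ in atTop, ∀ a : Fin s → ℕ, Admissible a (X ^ D) →
      ∀ Z Y : ℕ, (X : ℝ) ^ θ ≤ Y →
      Z + Y ≤ 2 * X → ∀ T : ℕ, T * V r X a ≤ x → ∀ E : Finset ℕ,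
        |(((Finset.Ioc Z (Z + Y)).filter (fun n => N D r X a T n ∈ E)).card : ℝ) -
          Y * Poi (T * V r X a) E| ≤ ε * Y := by
  obtain ⟨r0, h⟩ := fam_pois (s + 1) D (by omega) (fun X a => Admissible a (X ^ D))
    (fun r X a m => Good D r X a m) (fun r X a => V r X a) (fam s D hs) θ hθ x ε hε
  refine ⟨r0, fun r hr => ?_⟩
  filter_upwards [h r hr] with X hX a ha
  exact hX a ha

end Pool.Agent.Results.MP_bca3e5_nt.PoissonUniform
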