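import Pool.Agent.TH977.PW.Inst

set_option autoImplicit false

/-!
# Primes `n` with all `a n + 1` almost prime, and their neighbours

Let `𝒜` be an admissible set of `s` positive integers and let `R 𝒜 r` be the set of the `n` for
which all prime factors of `n` and of the `a n + 1`, `a ∈ 𝒜`, are larger than `n ^ (1 / r)`; it
contains all primes `n` with all `a n + 1` prime. The interval `(X, 2X]` contains at least
`κ X / log ^ (s + 1) X` PRIMES `n` in `R 𝒜 r` for which all `a n + 1` have at most `r` prime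
factors. Let `A` be an ARBITRARY subset of `R 𝒜 r` (the set of these primes, or the set counted by
`N_𝒜`). In every short interval `(X, X + Y]`, `X ^ θ ≤ Y ≤ X / 2`, all but
`ε Y / log ^ (s + 1) X` of the elements of `A` are regular points of `A`.
-/

namespace Pool.Agent.Results.MP_bca3e5_nt.RegularNeighbours

open Finset Filter
open Pool.Agent.TH977.PW (N Irregular)

/-- All prime factors of `n` and of all `a n + 1`, `a ∈ 𝒜`, are larger than `n ^ (1 / r)`. -/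
def R (𝒜 : Finset ℕ) (r : ℕ) : Set ℕ :=
  {n | ∀ q : ℕ, q.Prime → q ∣ n * ∏ a ∈ 𝒜, (a * n + 1) → (n : ℝ) ^ (1 / (r : ℝ)) < (q : ℝ)}

lemma cast_eq (a n : ℕ) : ((a : ℕ) : ℤ) * (n : ℤ) + 1 = ((a * n + 1 : ℕ) : ℤ) := by
  push_cast
  ring

/-- **Regular neighbours, `a n + 1` along primes.** -/
theorem result (𝒜 : Finset ℕ) (hpos : ∀ a ∈ 𝒜, 1 ≤ a)
    (hadm : ¬ ∃ p : ℕ, p.Prime ∧ ∀ n : ℕ, 1 ≤ n → p ∣ n * ∏ a ∈ 𝒜, (a * n + 1))
    (θ : ℝ) (hθ : 0 < θ) (hθ1 : θ ≤ 1) :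
    ∃ r₀ : ℕ, 2 ≤ r₀ ∧ ∀ r : ℕ, r₀ ≤ r →
      (∀ n : ℕ, n.Prime → (∀ a ∈ 𝒜, (a * n + 1).Prime) → n ∈ R 𝒜 r) ∧
      (∃ κ : ℝ, 0 < κ ∧ ∀ᶠ X : ℕ in atTop, κ * X / Real.log X ^ (𝒜.card + 1) ≤
        N {n | n.Prime ∧ n ∈ R 𝒜 r ∧ ∀ a ∈ 𝒜, (a * n + 1).primeFactorsList.length ≤ r}
          X (2 * X)) ∧
      ∀ ε : ℝ, 0 < ε → ∃ c : ℝ, 0 < c ∧ ∀ δ : ℝ, 0 < δ → ∃ B : ℕ,
        ∀ᶠ X : ℕ in atTop, ∀ Y : ℕ, (X : ℝ) ^ θ ≤ Y → 2 * Y ≤ X → ∀ A : Set ℕ, A ⊆ R 𝒜 r →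
          (N (Irregular A (𝒜.card + 1) c δ B X Y) X (X + Y) : ℝ) ≤
            ε * Y / Real.log X ^ (𝒜.card + 1) := by
  obtain ⟨r0, hr0, h⟩ := Pool.Agent.TH977.PW.final_lin_prime
    (fun i : {x // x ∈ 𝒜} => i.1) (fun _ : {x // x ∈ 𝒜} => (1 : ℤ)) (fun i => hpos i.1 i.2)
    (fun i => isCoprime_one_right)
    (fun i j hij _ => Subtype.ext hij)
    (fun i hi => one_ne_zero hi.2)
    (fun p hp => by
      by_contra hcon
      apply hadm
      refine ⟨p, hp, fun n _ => ?_⟩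
      by_contra hn
      apply hcon
      refine ⟨n, fun h1 => hn (h1.mul_right _), fun i hi => hn ?_⟩
      rw [cast_eq, Int.natCast_dvd_natCast] at hi
      exact (hi.trans (Finset.dvd_prod_of_mem (fun a => a * n + 1) i.2)).mul_left _)
    (fun r => R 𝒜 r)
    (fun r => {n | n.Prime ∧ n ∈ R 𝒜 r ∧ ∀ a ∈ 𝒜, (a * n + 1).primeFactorsList.length ≤ r})
    (𝒜.card + 1) (by rw [Fintype.card_coe])
    (fun r m _ hm => ⟨fun p hp hd => hm p hp (hd.mul_right _), fun i p hp hd => hm p hp (by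
      rw [cast_eq, Int.natCast_dvd_natCast] at hd
      exact (hd.trans (Finset.dvd_prod_of_mem (fun a => a * m + 1) i.2)).mul_left _)⟩)
    (fun r m hr hm h1 h2 => by
      refine ⟨hm, ?_, ?_⟩
      · intro q hq hd
        rcases (Nat.Prime.dvd_mul hq).1 hd with h3 | h3
        · exact Pool.Agent.TH977.PW.rpow_lt_dvd r m q hr hm hq h3
        · obtain ⟨a, ha, h4⟩ := (Prime.dvd_finsetProd_iff hq.prime _).1 h3
          refine h1 ⟨a, ha⟩ q hq ?_
          rw [cast_eq, Int.natCast_dvd_natCast]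
          exact h4
      · intro a ha
        have := h2 ⟨a, ha⟩
        rw [cast_eq, Int.natAbs_natCast] at this
        exact this) θ hθ hθ1
  refine ⟨r0, hr0, fun r hr => ⟨?_, (h r hr).1, (h r hr).2⟩⟩
  intro p hp hph q hq hd
  rcases (Nat.Prime.dvd_mul hq).1 hd with h3 | h3
  · exact Pool.Agent.TH977.PW.rpow_lt_dvd r p q (hr0.trans hr) hp hq h3
  · obtain ⟨a, ha, h4⟩ := (Prime.dvd_finsetProd_iff hq.prime _).1 h3
    rw [(Nat.prime_dvd_prime_iff_eq hq (hph a ha)).1 h4]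
    exact Pool.Agent.TH977.PW.rpow_lt_of_le r p (a * p + 1) (hr0.trans hr) hp.two_le
      (by nlinarith [hpos a ha])

end Pool.Agent.Results.MP_bca3e5_nt.RegularNeighbours
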